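import Mathlib

/-! Definitions for `MP_4ae49d_lc.ContinuousCase`. -/

namespace Pool.Agent.H76.CCS

/-! ### Definitions -/

/-- The characteristic function of `x`, as a partial function. -/
def chi (x : ℕ → Bool) : ℕ →. ℕ := fun n => Part.some (x n).toNat

/-- Turing reducibility `x ≤_T y`. -/
def TLe (x y : ℕ → Bool) : Prop := TuringReducible (chi x) (chi y)

/-- Turing equivalence. -/
def TEq (x y : ℕ → Bool) : Prop := TLe x y ∧ TLe y x

/-- Many-one reducibility `x ≤_m y`. -/
def MLe (x y : ℕ → Bool) : Prop := ∃ r : ℕ → ℕ, Computable r ∧ ∀ n, x n = y (r n)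

/-- Many-one equivalence. -/
def MEq (x y : ℕ → Bool) : Prop := MLe x y ∧ MLe y x

end Pool.Agent.H76.CCS
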