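import Pool.Agent.H76.CCS.Defs

/-!
# Turing-to-many-one invariant functions that are continuous on a cone

We prove: if `f : 2^ω → 2^ω` is `(≡_T, ≡_m)`-invariant on a cone and is continuous on a cone (more
generally: continuous after composition with a map preserving Turing degrees on a cone, such as the
canonical map onto the paths of a pointed perfect tree), then the many-one degree of `f x` is
constant on a cone.
-/

namespace Pool.Agent.H76.CCS

/-! ### Computability relative to a real -/

/-- `g` is computable from `x`. -/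
def Rec (x : ℕ → Bool) (g : ℕ → ℕ) : Prop :=
  Nat.RecursiveIn {chi x} (fun n => Part.some (g n))

theorem Rec.of_computable {x : ℕ → Bool} {g : ℕ → ℕ} (hg : Computable g) : Rec x g :=
  Nat.Partrec.recursiveIn (Partrec.nat_iff.1 hg)

theorem Rec.oracle (x : ℕ → Bool) : Rec x (fun n => (x n).toNat) :=
  Nat.RecursiveIn.oracle _ rfl

theorem Rec.comp {x : ℕ → Bool} {g h : ℕ → ℕ} (hg : Rec x g) (hh : Rec x h) :
    Rec x (fun n => g (h n)) := by
  have := Nat.RecursiveIn.comp hg hh
  simpa [Rec] using this

theorem Rec.pair {x : ℕ → Bool} {g h : ℕ → ℕ} (hg : Rec x g) (hh : Rec x h) :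
    Rec x (fun n => Nat.pair (g n) (h n)) := by
  have := Nat.RecursiveIn.pair hg hh
  simpa [Rec, Seq.seq] using this

theorem Rec.prec {x : ℕ → Bool} {g h : ℕ → ℕ} (hg : Rec x g) (hh : Rec x h) :
    Rec x (fun p => Nat.rec (motive := fun _ => ℕ) (g p.unpair.1)
      (fun y IH => h (Nat.pair p.unpair.1 (Nat.pair y IH))) p.unpair.2) := by
  have := Nat.RecursiveIn.prec hg hh
  refine Nat.RecursiveIn.of_eq this fun p => ?_
  simp only
  induction p.unpair.2 with
  | zero => simp
  | succ n ih =>
    simp only at ih ⊢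
    rw [ih]
    simp

theorem Rec.find {x : ℕ → Bool} {g : ℕ → ℕ} (hg : Rec x g)
    (H : ∀ a, ∃ n, g (Nat.pair a n) = 0) : Rec x (fun a => Nat.find (H a)) := by
  have := Nat.RecursiveIn.rfind hg
  refine Nat.RecursiveIn.of_eq this fun a => ?_
  apply Part.ext
  intro m
  rw [Nat.mem_rfind]
  simp only [Part.map_eq_map, Part.map_some, Part.mem_some_iff]
  constructor
  · rintro ⟨h1, h2⟩
    symm
    rw [Nat.find_eq_iff]
    refine ⟨by simpa using h1, fun n hn => ?_⟩
    have := h2 hn
    simpa using this
  · rintro rfl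
    refine ⟨by simpa using Nat.find_spec (H a), fun {n} hn => ?_⟩
    have := Nat.find_min (H a) hn
    simpa using this

theorem tle_iff {x y : ℕ → Bool} : TLe x y ↔ Rec y (fun n => (x n).toNat) :=
  RecursiveIn.iff_nat

theorem Rec.subst {x y : ℕ → Bool} {g : ℕ → ℕ} (hg : Rec x g) (h : TLe x y) : Rec y g := by
  refine Nat.RecursiveIn.subst hg ?_
  rintro k hk
  rw [Set.mem_singleton_iff.1 hk]
  exact tle_iff.1 h

theorem TLe.refl (x : ℕ → Bool) : TLe x x := tle_iff.2 (Rec.oracle x)

theorem TLe.trans {x y z : ℕ → Bool} (h1 : TLe x y) (h2 : TLe y z) : TLe x z :=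
  tle_iff.2 ((tle_iff.1 h1).subst h2)

/-- The join of two reals. -/
def join (x y : ℕ → Bool) : ℕ → Bool := fun n => if n % 2 = 0 then x (n / 2) else y (n / 2)

theorem join_even (x y : ℕ → Bool) (n : ℕ) : join x y (2 * n) = x n := by
  simp [join]

theorem join_odd (x y : ℕ → Bool) (n : ℕ) : join x y (2 * n + 1) = y n := by
  have h : (2 * n + 1) / 2 = n := by omega
  simp [join, h]

theorem left_le_join (x y : ℕ → Bool) : TLe x (join x y) := by
  rw [tle_iff]
  have h1 : Rec (join x y) (fun n => 2 * n) :=
    Rec.of_computable (Primrec.nat_mul.comp (Primrec.const 2) Primrec.id).to_comp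
  have := (Rec.oracle (join x y)).comp h1
  simpa [join_even] using this

theorem right_le_join (x y : ℕ → Bool) : TLe y (join x y) := by
  rw [tle_iff]
  have h1 : Rec (join x y) (fun n => 2 * n + 1) :=
    Rec.of_computable (Primrec.succ.comp
      (Primrec.nat_mul.comp (Primrec.const 2) Primrec.id)).to_comp
  have := (Rec.oracle (join x y)).comp h1
  simpa [join_odd] using this

theorem join_le {x y z : ℕ → Bool} (hx : TLe x z) (hy : TLe y z) : TLe (join x y) z := by
  rw [tle_iff] at *
  have hhalf : Rec z (fun n => n / 2) :=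
    Rec.of_computable (Primrec.nat_div.comp Primrec.id (Primrec.const 2)).to_comp
  have hG : Computable (fun m : ℕ => if m.unpair.1 % 2 = 0 then m.unpair.2.unpair.1
      else m.unpair.2.unpair.2) := by
    apply Primrec.to_comp
    have h1 : Primrec (fun m : ℕ => m.unpair.1) := Primrec.fst.comp Primrec.unpair
    have h2 : Primrec (fun m : ℕ => m.unpair.2) := Primrec.snd.comp Primrec.unpair
    have h3 : Primrec (fun m : ℕ => m.unpair.1 % 2) :=
      Primrec.nat_mod.comp h1 (Primrec.const 2)
    exact Primrec.ite (Primrec.eq.comp h3 (Primrec.const 0)) (h1.comp h2) (h2.comp h2)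
  have hid : Rec z (fun n => n) := Rec.of_computable Computable.id
  have := (Rec.of_computable (x := z) hG).comp
    (hid.pair ((hx.comp hhalf).pair (hy.comp hhalf)))
  refine cast (congrArg _ (funext fun n => ?_)) this
  simp only [Nat.unpair_pair, join]
  split_ifs <;> rfl

/-! ### Initial segments -/

/-- A code for the restriction of `x` to `q`. -/
def seg (x : ℕ → Bool) : ℕ → ℕ
  | 0 => 1
  | (q+1) => 2 * seg x q + (x q).toNat

theorem seg_eq {x y : ℕ → Bool} : ∀ {q : ℕ}, seg x q = seg y q → ∀ i < q, x i = y i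
  | 0, _, i, hi => by omega
  | (q+1), h, i, hi => by
    simp only [seg] at h
    have h1 : (x q).toNat < 2 := Bool.toNat_lt _
    have h2 : (y q).toNat < 2 := Bool.toNat_lt _
    have h3 : seg x q = seg y q := by omega
    have h4 : (x q).toNat = (y q).toNat := by omega
    rcases Nat.lt_succ_iff_lt_or_eq.1 hi with hlt | heq
    · exact seg_eq h3 i hlt
    · rw [heq]
      revert h4
      cases x q <;> cases y q <;> simp

theorem seg_rec (x : ℕ → Bool) : Rec x (seg x) := by
  have hg : Rec x (fun _ => 1) := Rec.of_computable (Computable.const 1)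
  have h1 : Primrec (fun m : ℕ => m.unpair.2.unpair.1) :=
    Primrec.fst.comp (Primrec.unpair.comp (Primrec.snd.comp Primrec.unpair))
  have h2 : Primrec (fun m : ℕ => m.unpair.2.unpair.2) :=
    Primrec.snd.comp (Primrec.unpair.comp (Primrec.snd.comp Primrec.unpair))
  have hA : Computable (fun m : ℕ => 2 * m.unpair.1 + m.unpair.2) := by
    apply Primrec.to_comp
    exact Primrec.nat_add.comp (Primrec.nat_mul.comp (Primrec.const 2)
      (Primrec.fst.comp Primrec.unpair)) (Primrec.snd.comp Primrec.unpair)
  have hh : Rec x (fun m => 2 * m.unpair.2.unpair.2 + (x m.unpair.2.unpair.1).toNat) := by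
    have := (Rec.of_computable (x := x) hA).comp
      ((Rec.of_computable (x := x) h2.to_comp).pair
        ((Rec.oracle x).comp (Rec.of_computable h1.to_comp)))
    simpa using this
  have h3 := hg.prec hh
  have h4 : Rec x (fun q => Nat.pair 0 q) := by
    have h5 : Computable (fun q : ℕ => Nat.pair 0 q) :=
      (Primrec₂.natPair.comp (Primrec.const 0) Primrec.id).to_comp
    exact Rec.of_computable h5
  have h6 := h3.comp h4
  refine cast (congrArg _ (funext fun q => ?_)) h6
  simp only [Nat.unpair_pair]
  induction q with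
  | zero => rfl
  | succ q ih => simp only [seg, ← ih]

/-! ### The diagonal construction -/

/-- The pair (string, argument) coded by a state. -/
def dec (s : ℕ) : List Bool × ℕ := (Encodable.decode s.unpair.1).getD ([], 0)

theorem dec_pair (t : List Bool) (n m : ℕ) :
    dec (Nat.pair (Encodable.encode (t, n)) m) = (t, n) := by
  simp [dec]

/-- The string coded by a state. -/
def str (s : ℕ) : List Bool := (dec s).1

/-- The argument coded by a state. -/
def arg (s : ℕ) : ℕ := (dec s).2

/-- `w` extends the string `t`. -/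
def Ext (w : ℕ → Bool) (t : List Bool) : Prop := ∀ j, ∀ h : j < t.length, w j = t[j]

/-- A listing of all computable functions. -/
theorem exists_listing : ∃ U : ℕ → ℕ → ℕ, ∀ r : ℕ → ℕ, Computable r → ∃ e, U e = r := by
  classical
  refine ⟨fun e => if h : ∃ r : ℕ → ℕ, (Denumerable.ofNat Nat.Partrec.Code e).eval = r
    then h.choose else 0, fun r hr => ?_⟩
  obtain ⟨c, hc⟩ := Nat.Partrec.Code.exists_code.1 (Partrec.nat_iff.1 hr)
  refine ⟨Encodable.encode c, ?_⟩
  have h : ∃ r : ℕ → ℕ, (Denumerable.ofNat Nat.Partrec.Code (Encodable.encode c)).eval = r := by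
    rw [Denumerable.ofNat_encode]
    exact ⟨r, hc⟩
  have h2 : ((h.choose : ℕ → ℕ) : ℕ →. ℕ) = (r : ℕ →. ℕ) := by
    rw [← h.choose_spec, Denumerable.ofNat_encode, hc]
  simp only
  rw [dif_pos h]
  funext n
  have h3 := congrFun h2 n
  exact Part.some_injective h3

section main

variable (g : (ℕ → Bool) → (ℕ → Bool)) (c : ℕ → Bool) (U : ℕ → ℕ → ℕ)

/-- The condition searched for in the construction. It depends on `x` only up to `q`. -/
def Cond (e s q : ℕ) (x : ℕ → Bool) : Prop :=
  (∃ t, str q = str s ++ t ∧ t ≠ []) ∧ ∃ i : Bool,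
    (∀ w x', Ext w (str q) → (∀ j < q, x' j = x j) → TLe c (join w x') →
      g (join w x') (arg q) = i) ∧
    (∀ x', (∀ j < q, x' j = x j) → TLe c x' → g x' (U e (arg q)) = !i)

theorem cond_congr {e s q : ℕ} {x y : ℕ → Bool} (h : ∀ j < q, x j = y j)
    (hx : Cond g c U e s q x) : Cond g c U e s q y := by
  obtain ⟨h1, i, h2, h3⟩ := hx
  refine ⟨h1, i, fun w x' hw hx' => h2 w x' hw fun j hj => ?_, fun x' hx' => h3 x' fun j hj => ?_⟩
  · rw [hx' j hj, h j hj]
  · rw [hx' j hj, h j hj]

open Classical in
/-- The oracle deciding `Cond`. -/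
noncomputable def Borac : ℕ → Bool := fun m =>
  decide (∃ x, seg x m.unpair.2.unpair.1 = m.unpair.2.unpair.2 ∧
    Cond g c U m.unpair.1.unpair.1 m.unpair.1.unpair.2 m.unpair.2.unpair.1 x)

theorem Borac_iff {e s q : ℕ} {x : ℕ → Bool} :
    Borac g c U (Nat.pair (Nat.pair e s) (Nat.pair q (seg x q))) = true
      ↔ Cond g c U e s q x := by
  simp only [Borac, Nat.unpair_pair, decide_eq_true_eq]
  constructor
  · rintro ⟨y, h1, h2⟩
    exact cond_congr g c U (seg_eq h1) h2
  · intro h
    exact ⟨x, rfl, h⟩

/-- The oracle reading bits of strings. -/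
def bitOrac : ℕ → Bool := fun m => (str m.unpair.1).getD m.unpair.2 false

/-- The base of the cone. -/
noncomputable def base : ℕ → Bool := join c (join (Borac g c U) bitOrac)

theorem c_le_base : TLe c (base g c U) := left_le_join _ _

theorem B_le_base : TLe (Borac g c U) (base g c U) :=
  (left_le_join _ _).trans (right_le_join _ _)

theorem bit_le_base : TLe bitOrac (base g c U) :=
  (right_le_join _ _).trans (right_le_join _ _)

/-- Continuity of a function on the cone above `c`, in elementary terms. -/
theorem cont_elem (hg : ContinuousOn g {x | TLe c x}) {y : ℕ → Bool} (hy : TLe c y) (n : ℕ) :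
    ∃ k, ∀ z, TLe c z → (∀ j < k, z j = y j) → g z n = g y n := by
  have h1 : ContinuousWithinAt g {x | TLe c x} y := hg y hy
  have h2 : Filter.Tendsto (fun z => g z n) (nhdsWithin y {x | TLe c x}) (nhds (g y n)) :=
    ((continuous_apply n).tendsto _).comp h1
  have h3 : ∀ᶠ z in nhdsWithin y {x | TLe c x}, g z n = g y n := by
    have := h2 (isOpen_discrete {g y n} |>.mem_nhds rfl)
    exact this
  rw [eventually_nhdsWithin_iff] at h3
  rw [Filter.Eventually] at h3
  obtain ⟨k, hk⟩ : ∃ k, ∀ z, (∀ j < k, z j = y j) → z ∈ {z | TLe c z → g z n = g y n} := by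
    obtain ⟨k, hk⟩ := (PiNat.isTopologicalBasis_cylinders (fun _ : ℕ => Bool)).mem_nhds_iff.1 h3
    obtain ⟨⟨x0, k0, rfl⟩, hyk, hsub⟩ := hk
    refine ⟨k0, fun z hz => hsub ?_⟩
    rw [PiNat.mem_cylinder_iff] at hyk ⊢
    intro j hj
    rw [hz j hj, hyk j hj]
  exact ⟨k, fun z hz1 hz2 => hk z hz2 hz1⟩

theorem ext_append {w : ℕ → Bool} {s t : List Bool} (h : Ext w (s ++ t)) : Ext w s := by
  intro j hj
  have h1 := h j (by rw [List.length_append]; omega)
  rw [h1, List.getElem_append_left hj]

/-- The first `L` bits of `w`. -/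
def bits (w : ℕ → Bool) (L : ℕ) : List Bool := (List.range L).map w

theorem bits_length (w : ℕ → Bool) (L : ℕ) : (bits w L).length = L := by simp [bits]

theorem ext_bits (w : ℕ → Bool) (L : ℕ) : Ext w (bits w L) := by
  intro j hj
  simp [bits]

theorem ext_bits_iff {w v : ℕ → Bool} {L : ℕ} (h : Ext v (bits w L)) : ∀ j < L, v j = w j := by
  intro j hj
  rw [h j (by rw [bits_length]; exact hj)]
  simp [bits]

/-- Existence of the objects searched for, when nothing is locally constant. -/
theorem exists_cond (hg : ContinuousOn g {x | TLe c x}) {x : ℕ → Bool} (hx : TLe c x)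
    (hne : ∀ t : List Bool, ∃ w w', Ext w t ∧ Ext w' t ∧ g (join w x) ≠ g (join w' x))
    (e s : ℕ) : ∃ q, Cond g c U e s q x := by
  obtain ⟨w1, w2, hw1, hw2, hne'⟩ := hne (str s ++ [false])
  obtain ⟨n, hn⟩ := Function.ne_iff.1 hne'
  -- choose the right one
  obtain ⟨w, hw, hwn⟩ : ∃ w, Ext w (str s ++ [false]) ∧
      g (join w x) n ≠ g x (U e n) := by
    by_cases h : g (join w1 x) n = g x (U e n)
    · refine ⟨w2, hw2, fun h' => hn ?_⟩
      rw [h, h']
    · exact ⟨w1, hw1, h⟩
  have hcw : TLe c (join w x) := hx.trans (right_le_join _ _)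
  obtain ⟨k1, hk1⟩ := cont_elem g c hg hcw n
  obtain ⟨k2, hk2⟩ := cont_elem g c hg hx (U e n)
  set L := max k1 ((str s).length + 1) with hL
  set q := Nat.pair (Encodable.encode ((bits w L, n) : List Bool × ℕ)) (max k1 k2) with hq
  have hqk : max k1 k2 ≤ q := Nat.right_le_pair _ _
  have hstr : str q = bits w L := by
    rw [str, hq, dec_pair]
  have harg : arg q = n := by
    rw [arg, hq, dec_pair]
  refine ⟨q, ⟨(bits w L).drop (str s).length, ?_, ?_⟩, g (join w x) n, ?_, ?_⟩
  · rw [hstr]
    have h1 : (bits w L).take (str s).length = str s := by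
      apply List.ext_getElem
      · rw [List.length_take, bits_length]; omega
      · intro j h1 h2
        have h3 := (ext_append hw) j h2
        simp only [List.getElem_take]
        simp only [bits, List.getElem_map, List.getElem_range]
        exact h3
    conv_lhs => rw [← List.take_append_drop (str s).length (bits w L), h1]
  · intro h
    have := congrArg List.length h
    rw [List.length_drop, bits_length] at this
    simp at this
    omega
  · intro w' x' hw' hx' hc'
    rw [harg]
    apply hk1 _ hc'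
    intro j hj
    rw [hstr] at hw'
    rcases Nat.even_or_odd' j with ⟨m, rfl | rfl⟩
    · rw [join_even, join_even]
      exact ext_bits_iff hw' m (by omega)
    · rw [join_odd, join_odd]
      exact hx' m (by omega)
  · intro x' hx' hc'
    rw [harg, hk2 x' hc' (fun j hj => hx' j (by omega))]
    revert hwn
    cases g (join w x) n <;> cases g x (U e n) <;> simp

/-- The result of the search. -/
noncomputable def nextState (x : ℕ → Bool) (H : ∀ a, ∃ q,
    1 - (Borac g c U (Nat.pair a (Nat.pair q (seg x q)))).toNat = 0) (a : ℕ) : ℕ :=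
  Nat.find (H a)

theorem nextState_rec {x : ℕ → Bool} (hx : TLe (base g c U) x) (H : ∀ a, ∃ q,
    1 - (Borac g c U (Nat.pair a (Nat.pair q (seg x q)))).toNat = 0) :
    Rec x (nextState g c U x H) := by
  have hB : Rec x (fun n => (Borac g c U n).toNat) := tle_iff.1 ((B_le_base g c U).trans hx)
  -- the function searched
  set G : ℕ → ℕ := fun m => 1 - (Borac g c U
    (Nat.pair m.unpair.1 (Nat.pair m.unpair.2 (seg x m.unpair.2)))).toNat with hG
  have h1 : Rec x (fun m : ℕ => m.unpair.1) :=
    Rec.of_computable (Primrec.fst.comp Primrec.unpair).to_comp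
  have h2 : Rec x (fun m : ℕ => m.unpair.2) :=
    Rec.of_computable (Primrec.snd.comp Primrec.unpair).to_comp
  have hsub : Rec x (fun m : ℕ => 1 - m) :=
    Rec.of_computable (Primrec.nat_sub.comp (Primrec.const 1) Primrec.id).to_comp
  have hGrec : Rec x G :=
    hsub.comp (hB.comp (h1.pair (h2.pair ((seg_rec x).comp h2))))
  have H' : ∀ a, ∃ q, G (Nat.pair a q) = 0 := by
    intro a
    obtain ⟨q, hq⟩ := H a
    exact ⟨q, by simp only [hG, Nat.unpair_pair]; exact hq⟩
  have h3 := hGrec.find H'
  have h4 : (fun a => Nat.find (H' a)) = nextState g c U x H := by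
    funext a
    have hGa : ∀ q, G (Nat.pair a q) =
        1 - (Borac g c U (Nat.pair a (Nat.pair q (seg x q)))).toNat := by
      intro q
      simp only [hG, Nat.unpair_pair]
    apply (Nat.find_eq_iff (H' a)).2
    refine ⟨?_, fun n hn => ?_⟩
    · rw [hGa]; exact Nat.find_spec (H a)
    · rw [hGa]; exact Nat.find_min (H a) hn
  rw [← h4]
  exact h3

/-- The sequence of states. -/
noncomputable def state (x : ℕ → Bool) (H : ∀ a, ∃ q,
    1 - (Borac g c U (Nat.pair a (Nat.pair q (seg x q)))).toNat = 0) : ℕ → ℕ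
  | 0 => 0
  | (e+1) => nextState g c U x H (Nat.pair e (state x H e))

theorem state_rec {x : ℕ → Bool} (hx : TLe (base g c U) x) (H : ∀ a, ∃ q,
    1 - (Borac g c U (Nat.pair a (Nat.pair q (seg x q)))).toNat = 0) :
    Rec x (state g c U x H) := by
  have hg : Rec x (fun _ => 0) := Rec.of_computable (Computable.const 0)
  have hh : Rec x (fun m => nextState g c U x H m.unpair.2) :=
    (nextState_rec g c U hx H).comp
      (Rec.of_computable (Primrec.snd.comp Primrec.unpair).to_comp)
  have h3 := hg.prec hh
  have h4 : Rec x (fun q => Nat.pair 0 q) := by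
    have h5 : Computable (fun q : ℕ => Nat.pair 0 q) :=
      (Primrec₂.natPair.comp (Primrec.const 0) Primrec.id).to_comp
    exact Rec.of_computable h5
  have h6 := h3.comp h4
  refine cast (congrArg _ (funext fun q => ?_)) h6
  simp only [Nat.unpair_pair]
  induction q with
  | zero => rfl
  | succ q ih => simp only [state, ← ih]

/-- The diagonalising real. -/
noncomputable def diag (x : ℕ → Bool) (H : ∀ a, ∃ q,
    1 - (Borac g c U (Nat.pair a (Nat.pair q (seg x q)))).toNat = 0) : ℕ → Bool :=
  fun k => bitOrac (Nat.pair (state g c U x H (k+1)) k)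

theorem diag_le {x : ℕ → Bool} (hx : TLe (base g c U) x) (H : ∀ a, ∃ q,
    1 - (Borac g c U (Nat.pair a (Nat.pair q (seg x q)))).toNat = 0) :
    TLe (diag g c U x H) x := by
  rw [tle_iff]
  have hb : Rec x (fun n => (bitOrac n).toNat) := tle_iff.1 ((bit_le_base g c U).trans hx)
  have h1 : Rec x (fun k => state g c U x H (k+1)) :=
    (state_rec g c U hx H).comp (Rec.of_computable Primrec.succ.to_comp)
  exact hb.comp (h1.pair (Rec.of_computable Computable.id))

theorem state_spec {x : ℕ → Bool} (H : ∀ a, ∃ q,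
    1 - (Borac g c U (Nat.pair a (Nat.pair q (seg x q)))).toNat = 0) (e : ℕ) :
    Cond g c U e (state g c U x H e) (state g c U x H (e+1)) x := by
  have h1 := Nat.find_spec (H (Nat.pair e (state g c U x H e)))
  have h2 : state g c U x H (e+1) = Nat.find (H (Nat.pair e (state g c U x H e))) := rfl
  rw [← h2] at h1
  rw [← Borac_iff]
  revert h1
  cases Borac g c U (Nat.pair (Nat.pair e (state g c U x H e))
    (Nat.pair (state g c U x H (e+1)) (seg x (state g c U x H (e+1))))) <;> simp

theorem state_prefix {x : ℕ → Bool} (H : ∀ a, ∃ q,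
    1 - (Borac g c U (Nat.pair a (Nat.pair q (seg x q)))).toNat = 0) {e e' : ℕ} (h : e ≤ e') :
    str (state g c U x H e) <+: str (state g c U x H e') := by
  induction h with
  | refl => exact List.prefix_refl _
  | @step m hm ih =>
    refine ih.trans ?_
    obtain ⟨⟨t, ht, -⟩, -⟩ := state_spec g c U H m
    exact ⟨t, ht.symm⟩

theorem state_length {x : ℕ → Bool} (H : ∀ a, ∃ q,
    1 - (Borac g c U (Nat.pair a (Nat.pair q (seg x q)))).toNat = 0) (e : ℕ) :
    e ≤ (str (state g c U x H e)).length := by
  induction e with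
  | zero => exact Nat.zero_le _
  | succ e ih =>
    obtain ⟨⟨t, ht, hne⟩, -⟩ := state_spec g c U H e
    rw [ht, List.length_append]
    have : 0 < t.length := List.length_pos_iff.2 hne
    omega

theorem diag_ext {x : ℕ → Bool} (H : ∀ a, ∃ q,
    1 - (Borac g c U (Nat.pair a (Nat.pair q (seg x q)))).toNat = 0) (e : ℕ) :
    Ext (diag g c U x H) (str (state g c U x H e)) := by
  intro j hj
  have hlen := state_length g c U H (j+1)
  have h1 : diag g c U x H j = (str (state g c U x H (j+1))).getD j false := by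
    simp only [diag, bitOrac, Nat.unpair_pair]
  rw [h1, List.getD_eq_getElem _ _ (by omega)]
  rcases le_total e (j+1) with h | h
  · obtain ⟨t, ht⟩ := state_prefix g c U H h
    simp only [← ht]
    rw [List.getElem_append_left hj]
  · obtain ⟨t, ht⟩ := state_prefix g c U H h
    simp only [← ht]
    rw [List.getElem_append_left (by omega)]

/-- Key proposition: local constancy. -/
theorem exists_const (hU : ∀ r : ℕ → ℕ, Computable r → ∃ e, U e = r)
    (hinv : ∀ x y, TLe c x → TEq x y → MEq (g x) (g y))
    (hg : ContinuousOn g {x | TLe c x}) {x : ℕ → Bool} (hx : TLe (base g c U) x) :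
    ∃ t : List Bool, ∀ w w', Ext w t → Ext w' t → g (join w x) = g (join w' x) := by
  by_contra hcon
  push Not at hcon
  have hcx : TLe c x := (c_le_base g c U).trans hx
  have H : ∀ a, ∃ q, 1 - (Borac g c U (Nat.pair a (Nat.pair q (seg x q)))).toNat = 0 := by
    intro a
    obtain ⟨q, hq⟩ := exists_cond g c U hg hcx
      (fun t => by
        obtain ⟨w, w', h1, h2, h3⟩ := hcon t
        exact ⟨w, w', h1, h2, h3⟩) a.unpair.1 a.unpair.2
    refine ⟨q, ?_⟩
    have h1 := (Borac_iff g c U).2 hq
    rw [Nat.pair_unpair] at h1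
    rw [h1]
    rfl
  set w := diag g c U x H with hw
  have hwx : TLe w x := diag_le g c U hx H
  have hteq : TEq (join w x) x := ⟨join_le hwx (TLe.refl x), right_le_join _ _⟩
  have hcj : TLe c (join w x) := hcx.trans (right_le_join _ _)
  obtain ⟨⟨r, hr, hrr⟩, -⟩ := hinv _ _ hcj hteq
  obtain ⟨e, rfl⟩ := hU r hr
  obtain ⟨-, i, h1, h2⟩ := state_spec g c U H e
  have h3 := h1 w x (diag_ext g c U H (e+1)) (fun _ _ => rfl) hcj
  have h4 := h2 x (fun _ _ => rfl) hcx
  rw [hrr, h4] at h3
  revert h3
  cases i <;> simp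

end main

theorem MLe.refl (x : ℕ → Bool) : MLe x x := ⟨id, Computable.id, fun _ => rfl⟩

theorem MLe.trans {x y z : ℕ → Bool} (h1 : MLe x y) (h2 : MLe y z) : MLe x z := by
  obtain ⟨r, hr, h1⟩ := h1
  obtain ⟨s, hs, h2⟩ := h2
  exact ⟨fun n => s (r n), hs.comp hr, fun n => by rw [h1, h2]⟩

theorem MEq.refl (x : ℕ → Bool) : MEq x x := ⟨MLe.refl x, MLe.refl x⟩

theorem MEq.symm {x y : ℕ → Bool} (h : MEq x y) : MEq y x := ⟨h.2, h.1⟩

theorem MEq.trans {x y z : ℕ → Bool} (h1 : MEq x y) (h2 : MEq y z) : MEq x z :=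
  ⟨h1.1.trans h2.1, h2.2.trans h1.2⟩

/-- `y` with the string `t` put in front. -/
def app (t : List Bool) (y : ℕ → Bool) : ℕ → Bool :=
  fun n => if h : n < t.length then t[n] else y (n - t.length)

theorem ext_app (t : List Bool) (y : ℕ → Bool) : Ext (app t y) t := by
  intro j hj
  simp [app, hj]

theorem le_app (t : List Bool) (y : ℕ → Bool) : TLe y (app t y) := by
  rw [tle_iff]
  have h1 : Rec (app t y) (fun n => n + t.length) :=
    Rec.of_computable (Primrec.nat_add.comp Primrec.id (Primrec.const _)).to_comp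
  have := (Rec.oracle (app t y)).comp h1
  simpa [app] using this

theorem app_le (t : List Bool) (y : ℕ → Bool) : TLe (app t y) y := by
  rw [tle_iff]
  have h1 : Rec y (fun n => n - t.length) :=
    Rec.of_computable (Primrec.nat_sub.comp Primrec.id (Primrec.const _)).to_comp
  have h2 := (Rec.oracle y).comp h1
  have hA : Computable (fun m : ℕ => if m.unpair.1 < t.length
      then ((t[m.unpair.1]?).getD false).toNat else m.unpair.2) := by
    apply Primrec.to_comp
    have h1 : Primrec (fun m : ℕ => m.unpair.1) := Primrec.fst.comp Primrec.unpair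
    have h2 : Primrec (fun m : ℕ => m.unpair.2) := Primrec.snd.comp Primrec.unpair
    have h3 : Primrec (fun m : ℕ => ((t[m.unpair.1]?).getD false).toNat) := by
      have h4 : Primrec (fun m : ℕ => t[m.unpair.1]?) :=
        Primrec.list_getElem?.comp (Primrec.const t) h1
      have h5 : Primrec (fun m : ℕ => (t[m.unpair.1]?).getD false) :=
        Primrec.option_getD.comp h4 (Primrec.const false)
      exact (Primrec.dom_bool Bool.toNat).comp h5
    exact Primrec.ite (Primrec.nat_lt.comp h1 (Primrec.const _)) h3 h2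
  have h3 := (Rec.of_computable (x := y) hA).comp
    ((Rec.of_computable (x := y) Computable.id).pair h2)
  refine cast (congrArg _ (funext fun n => ?_)) h3
  simp only [Nat.unpair_pair, app, id]
  by_cases h : n < t.length
  · simp [h]
  · simp [h]

theorem const_on_cone (g : (ℕ → Bool) → (ℕ → Bool)) (c : ℕ → Bool)
    (hinv : ∀ x y, TLe c x → TEq x y → MEq (g x) (g y))
    (hg : ContinuousOn g {x | TLe c x}) :
    ∃ b, TLe c b ∧ ∀ x, TLe b x → MEq (g x) (g b) := by
  obtain ⟨U, hU⟩ := exists_listing
  refine ⟨base g c U, c_le_base g c U, fun x hx => ?_⟩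
  obtain ⟨t, ht⟩ := exists_const g c U hU hinv hg (TLe.refl (base g c U))
  set b := base g c U with hb
  have hcb : TLe c b := c_le_base g c U
  have h1 : TEq (join (app t x) b) x :=
    ⟨join_le (app_le t x) hx, (le_app t x).trans (left_le_join _ _)⟩
  have h2 : TEq (join (app t b) b) b :=
    ⟨join_le (app_le t b) (TLe.refl b), right_le_join _ _⟩
  have h3 : g (join (app t x) b) = g (join (app t b) b) := ht _ _ (ext_app t x) (ext_app t b)
  have h4 : MEq (g (join (app t x) b)) (g x) :=
    hinv _ _ (hcb.trans (right_le_join _ _)) h1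
  have h5 : MEq (g (join (app t b) b)) (g b) :=
    hinv _ _ (hcb.trans (right_le_join _ _)) h2
  rw [h3] at h4
  exact h4.symm.trans h5

/-- **Main theorem.**  Let `f : 2^ω → 2^ω` be `(≡_T, ≡_m)`-invariant and let `h : 2^ω → 2^ω`
satisfy `h z ≡_T z` for all `z` in the cone above `c` (for instance `h = id`, or the canonical map
of `2^ω` onto the paths of a pointed perfect tree).  If `f ∘ h` is continuous on the cone above `c`
then the many-one degree of `f x` is constant on a cone. -/
theorem main (f h : (ℕ → Bool) → (ℕ → Bool)) (c : ℕ → Bool)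
    (hf : ∀ x y, TEq x y → MEq (f x) (f y))
    (hh : ∀ z, TLe c z → TEq (h z) z)
    (hcont : ContinuousOn (fun z => f (h z)) {z | TLe c z}) :
    ∃ b, ∀ x, TLe b x → MEq (f x) (f b) := by
  obtain ⟨b, hcb, hb⟩ := const_on_cone (fun z => f (h z)) c (fun x y hx hxy => by
    have hy : TLe c y := hx.trans hxy.1
    have h1 := hh x hx
    have h2 := hh y hy
    exact hf _ _ ⟨h1.1.trans (hxy.1.trans h2.2), h2.1.trans (hxy.2.trans h1.2)⟩) hcont
  refine ⟨b, fun x hx => ?_⟩
  have h1 : MEq (f (h x)) (f x) := hf _ _ (hh x (hcb.trans hx))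
  have h2 : MEq (f (h b)) (f b) := hf _ _ (hh b hcb)
  exact h1.symm.trans ((hb x hx).trans h2)

end Pool.Agent.H76.CCS
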